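import Pool.Agent.R203.IF.Stm

/-!
# Project IF, piece IF-PGF: pushing along the fixed point set, from a transitive group
-/

set_option autoImplicit false

open Set Topology

noncomputable section

namespace Pool.Agent.R609.IF

open Pool.Agent.Y489.GE Pool.Agent.R203.IF

/-- the fixed points, as a space -/
abbrev Fxt {X : Type} (σ : X → X) : Type := {x : X // σ x = x}

/-- the action of the group on the fixed points -/
@[reducible]
def act {X G : Type} [Group G] [MulAction G X] {σ : X → X}
    (hσ : ∀ (g : G) (x : X), g • σ x = σ (g • x)) : MulAction G (Fxt σ) where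
  smul g x := ⟨g • x.1, by rw [← hσ, x.2]⟩
  one_smul x := Subtype.ext (one_smul G x.1)
  mul_smul g h x := Subtype.ext (mul_smul g h x.1)

theorem t_PGF : S_LIFT → S_PGF := by
  intro hL X G _ _ _ _ _ _ σ p lam hσc hp hlip hσ hloc
  obtain ⟨U, hU, v, hv, hv1, hvp⟩ := hloc
  intro K _ _ b hb hbσ hb0 hb1
  let _ : MulAction G (Fxt σ) := act hσ
  have hcoe : ∀ (g : G) (x : Fxt σ), ((g • x : Fxt σ) : X) = g • (x : X) := fun _ _ => rfl
  have : ContinuousSMul G (Fxt σ) := by
    refine ⟨?_⟩
    have h1 : Continuous (fun z : G × Fxt σ => z.1 • (z.2 : X)) :=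
      continuous_fst.smul (continuous_subtype_val.comp continuous_snd)
    exact h1.subtype_mk _
  obtain ⟨g, hg, hg0, hg1, hgb, -⟩ := hL (Fxt σ) G ⟨p, hp⟩ lam
    (fun g x y => hlip g x.1 y.1)
    ⟨Subtype.val ⁻¹' U, continuous_subtype_val.continuousAt.preimage_mem_nhds hU,
      fun x => v x.1, hv.comp continuous_subtype_val.continuousOn (fun x hx => ⟨hx, x.2⟩), hv1,
      fun x hx => Subtype.ext (hvp x.1 hx x.2)⟩
    K (fun k s => ⟨b k s, hbσ k s⟩) (hb.subtype_mk _)
    (fun k s hs => Subtype.ext (hb0 k s (by linarith)))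
    (fun k s hs => Subtype.ext (hb1 k s hs))
  refine ⟨fun k s x => (g k s)⁻¹ • x, ?_, ?_, ?_, ?_, ?_⟩
  · exact (hg.comp continuous_fst).inv.smul continuous_snd
  · exact fun k s x y => hlip _ x y
  · intro k s
    have h1 : g k s • p = b k s := congrArg Subtype.val (hgb k s)
    show (g k s)⁻¹ • b k s = p
    rw [← h1, inv_smul_smul]
  · intro k s hs x
    show (g k s)⁻¹ • x = x
    rw [hg0 k s hs, inv_one, one_smul]
  · exact fun k s x => hσ _ x

end Pool.Agent.R609.IF
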